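import Pool.Agent.Q109.CP.Stm
import Pool.Agent.Q257.CP_FUB0
import Pool.Agent.Q257.CP_FUB2
import Pool.Agent.Q257.CP_GP
import Pool.Agent.Q257.CP_CMP
import Pool.Agent.Q257.CP_PUSH
import Pool.Agent.Q257.CP_DIV
import Pool.Agent.Q257.CP_DIR
import Pool.Agent.Q257.CP_RAT
import Pool.Agent.Q257.CP_UNI
import Pool.Agent.Q257.CP_DET
import Pool.Agent.Q257.CP_EXT
import Pool.Agent.Q257.CP_EXCH
import Pool.Agent.Q257.CP_DEV
import Pool.Agent.Q162.CP.ORB1
import Pool.Agent.Q162.CP.ORB2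
import Pool.Agent.Q162.CP.FIN

/-! Assembly of project CP (MP_2d2444_co). -/

namespace Q109.CP

theorem all : S_FIN := by
  have hgp : S_GP := Q257.CP.gp
  have hcmp : S_CMP := Q257.CP.cmp hgp
  have hpush : S_PUSH := Q257.CP.push hgp
  have hdiv : S_DIV := Q257.CP.DIV.div hgp hpush
  have hexch : S_EXCH := Q257.CP.EXCH.exch
  have hdev : S_DEV := Q257.CP.DEV.dev
  have hfub0 : S_FUB0 := Q257.CP.FUB0.fub0
  have hfub2 : S_FUB2 := Q257.CP.FUB2.fub2 hfub0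
  have hdir : S_DIR := Q257.CP.DIR.dir hexch hdev hfub0
  have hrat : S_RAT := Q257.CP.RAT.rat hgp hcmp hdiv hdir
  have huni : S_UNI := Q257.CP.UNI.uni hgp
  have hdet : S_DET := Q257.CP.DET.det huni
  have hext : S_EXT := Q257.CP.EXT.ext hgp hexch hdev hfub2 hrat hdet
  exact Pool.Agent.Q162.CP3.fin hgp hext Pool.Agent.Q162.CP.orb1 Pool.Agent.Q162.CP2.orb2

end Q109.CP
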