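import Mathlib

/-!
Project CP (helper109): MP_2d2444_co, heights in random linear extensions of cluster posets.
Notation: `p` elements below, `q` elements between, `r` elements above in each of the `n` blocks;
`s = q+1`. Side chains are replaced by antichains (this multiplies the number of linear
extensions by `(p! q! r!)^n` and does not change the law of the heights of the `X i`).
-/

namespace Q109.CP

open MeasureTheory Set Filter Topology

/-- Elements of the (unordered sides) cluster poset with `n` blocks. -/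
abbrev E (n p q r : ℕ) : Type :=
  Fin (n + 1) ⊕ (Fin n × Fin p) ⊕ (Fin n × Fin q) ⊕ (Fin n × Fin r)

/-- main chain -/
def X {n p q r : ℕ} (i : Fin (n + 1)) : E n p q r := Sum.inl i
/-- elements below `X i` -/
def lo {n p q r : ℕ} (i : Fin n) (j : Fin p) : E n p q r := Sum.inr (Sum.inl (i, j))
/-- elements between `X i` and `X (i+1)` -/
def mi {n p q r : ℕ} (i : Fin n) (j : Fin q) : E n p q r := Sum.inr (Sum.inr (Sum.inl (i, j)))
/-- elements above `X (i+1)` -/
def up {n p q r : ℕ} (i : Fin n) (j : Fin r) : E n p q r := Sum.inr (Sum.inr (Sum.inr (i, j)))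

/-- `v` respects all relations. -/
def Ord {α : Type} [LT α] {n p q r : ℕ} (v : E n p q r → α) : Prop :=
  (∀ i : Fin n, v (X i.castSucc) < v (X i.succ)) ∧
  (∀ (i : Fin n) (j : Fin p), v (lo i j) < v (X i.castSucc)) ∧
  (∀ (i : Fin n) (j : Fin q), v (X i.castSucc) < v (mi i j) ∧ v (mi i j) < v (X i.succ)) ∧
  (∀ (i : Fin n) (j : Fin r), v (X i.succ) < v (up i j))

/-- The uniform probability measure on `[0,1]^ι`. -/
noncomputable def cube (ι : Type) [Fintype ι] : Measure (ι → ℝ) :=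
  Measure.pi (fun _ : ι => (volume : Measure ℝ).restrict (Icc (0 : ℝ) 1))

open Classical in
/-- number of coordinates smaller than the coordinate `e` -/
noncomputable def rk {ι : Type} [Fintype ι] (v : ι → ℝ) (e : ι) : ℕ :=
  (Finset.univ.filter (fun e' => v e' < v e)).card

/-- some coordinate is far from its relative rank -/
def Dev (ι : Type) [Fintype ι] (δ : ℝ) : Set (ι → ℝ) :=
  {v | ∃ e, δ < |(rk v e : ℝ) / (Fintype.card ι : ℝ) - v e|}

/-- `σ` is the ordering of the coordinates of `v` -/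
def Match {ι : Type} [Fintype ι] (v : ι → ℝ) (σ : ι ≃ Fin (Fintype.card ι)) : Prop :=
  ∀ a b, σ a < σ b ↔ v a < v b

/-- density of the main chain (all `n+1` points) -/
noncomputable def W0 (n p q r : ℕ) (x : Fin (n + 1) → ℝ) : ℝ :=
  ∏ i : Fin n, x i.castSucc ^ p * (x i.succ - x i.castSucc) ^ q * (1 - x i.succ) ^ r

/-- density of the inner points of the main chain with `K+2` blocks (`K+1` inner points) -/
noncomputable def Wt (K p q r : ℕ) (x : Fin (K + 1) → ℝ) : ℝ :=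
  x 0 ^ (p + q + 1) * (1 - x (Fin.last K)) ^ (q + r + 1) *
    (∏ i : Fin (K + 1), x i ^ p * (1 - x i) ^ r) *
    ∏ i : Fin K, (x i.succ - x i.castSucc) ^ q

/-- the beta density (not normalised) -/
noncomputable def phi (p q r : ℕ) (x : ℝ) : ℝ :=
  x ^ ((p : ℝ) / ((q : ℝ) + 1)) * (1 - x) ^ ((r : ℝ) / ((q : ℝ) + 1))

/-- its primitive -/
noncomputable def G (p q r : ℕ) (x : ℝ) : ℝ := ∫ t in (0 : ℝ)..x, phi p q r t

/-- the normalised primitive -/
noncomputable def gg (p q r : ℕ) (x : ℝ) : ℝ := G p q r x / G p q r 1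

/-- the comparison density -/
noncomputable def Dt (K p q r : ℕ) (x : Fin (K + 1) → ℝ) : ℝ :=
  (∏ i : Fin (K + 1), phi p q r (x i)) *
    ∏ i : Fin K, (G p q r (x i.succ) - G p q r (x i.castSucc)) ^ q

/-- integral of `Wt` over the increasing points of `A` -/
noncomputable def WI (K p q r : ℕ) (A : Set (Fin (K + 1) → ℝ)) : ENNReal :=
  ∫⁻ x in {x : Fin (K + 1) → ℝ | StrictMono x ∧ x ∈ A}, ENNReal.ofReal (Wt K p q r x)
    ∂(cube (Fin (K + 1)))

/-- integral of `Dt` over the increasing points of `A` -/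
noncomputable def DI (K p q r : ℕ) (A : Set (Fin (K + 1) → ℝ)) : ENNReal :=
  ∫⁻ x in {x : Fin (K + 1) → ℝ | StrictMono x ∧ x ∈ A}, ENNReal.ofReal (Dt K p q r x)
    ∂(cube (Fin (K + 1)))

/-- the Dirichlet integral over the increasing points of `A` -/
noncomputable def V (K q : ℕ) (A : Set (Fin (K + 1) → ℝ)) : ENNReal :=
  ∫⁻ x in {x : Fin (K + 1) → ℝ | StrictMono x ∧ x ∈ A},
    ENNReal.ofReal (∏ i : Fin K, (x i.succ - x i.castSucc) ^ q) ∂(cube (Fin (K + 1)))

/-- number of elements -/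
noncomputable def NN (n p q r : ℕ) : ℕ := Fintype.card (E n p q r)

/-- the inner points which are badly placed -/
def Bad (K p q r : ℕ) (δ : ℝ) : Set (Fin (K + 1) → ℝ) :=
  {x | ∃ i : Fin (K + 1), δ < |gg p q r (x i) - ((i : ℕ) : ℝ) / (K : ℝ)|}

/-- the inverse of `gg` on `[0,1]` -/
noncomputable def ff (p q r : ℕ) : ℝ → ℝ := Function.invFunOn (gg p q r) (Icc (0 : ℝ) 1)

/-- Blocks are sorted. -/
def Sorted {N n p q r : ℕ} (σ : E n p q r → Fin N) : Prop :=
  (∀ i : Fin n, StrictMono (fun j : Fin p => σ (lo i j))) ∧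
  (∀ i : Fin n, StrictMono (fun j : Fin q => σ (mi i j))) ∧
  (∀ i : Fin n, StrictMono (fun j : Fin r => σ (up i j)))

/-- `h i j` is the height of `A_{i,j}` in a linear extension of the cluster poset (positions
`a < b` in each chain are identified, `A_{i,b} = A_{i+1,a}`). -/
def IsLE {n m : ℕ} (a b : Fin m) (h : Fin n → Fin m → ℕ) : Prop :=
  (∀ i, StrictMono (h i)) ∧
  (∀ i j, h i j < (m - 1) * n + 1) ∧
  (∀ i i' : Fin n, (i : ℕ) + 1 = i' → h i b = h i' a) ∧
  (∀ (i i' : Fin n) (j j' : Fin m), h i j = h i' j' →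
    (i = i' ∧ j = j') ∨ ((i : ℕ) + 1 = i' ∧ j = b ∧ j' = a) ∨ ((i' : ℕ) + 1 = i ∧ j' = b ∧ j = a))

/-- height of the `i`-th distinguished element, `0 ≤ i ≤ n` -/
def ht {n m : ℕ} (a b : Fin m) (h : Fin n → Fin m → ℕ) (i : ℕ) : ℕ :=
  if hi : i < n then h ⟨i, hi⟩ a else if hn : n - 1 < n then h ⟨n - 1, hn⟩ b else 0

/-- `g` of the problem (`a`, `b` are 0-based positions) -/
noncomputable def g {m : ℕ} (a b : Fin m) (t : ℝ) : ℝ :=
  (∫ u in (0 : ℝ)..t, u ^ (((a : ℕ) : ℝ) / ((b : ℕ) - (a : ℕ) : ℝ)) *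
      (1 - u) ^ (((m : ℝ) - 1 - ((b : ℕ) : ℝ)) / ((b : ℕ) - (a : ℕ) : ℝ))) /
  (∫ u in (0 : ℝ)..1, u ^ (((a : ℕ) : ℝ) / ((b : ℕ) - (a : ℕ) : ℝ)) *
      (1 - u) ^ (((m : ℝ) - 1 - ((b : ℕ) : ℝ)) / ((b : ℕ) - (a : ℕ) : ℝ)))

/-- `f` is the inverse of `g` on `[0,1]` -/
noncomputable def f {m : ℕ} (a b : Fin m) : ℝ → ℝ := Function.invFunOn (g a b) (Icc (0 : ℝ) 1)

end Q109.CP
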