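import Pool.Agent.Q109.CP.Defs

/-!
Statements of project CP with complete proofs in the docstrings.
-/

namespace Q109.CP

open MeasureTheory Set Filter Topology

/-- EXCH (exchangeability of the uniform measure).
Proof. `cube ι` is a product of copies of `μ₁ = volume.restrict (Icc 0 1)`, a probability measure
without atoms. (i) A.e. `v e ∈ [0,1]` (`Measure.ae_restrict` on each coordinate, or
`Measure.restrict_pi_pi`). (ii) For `e ≠ e'` the set `v e = v e'` is null (the pair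
`(v e, v e')` has law `μ₁ ⊗ μ₁`; Fubini and no atoms); so a.e. `v` is injective. (iii) An injective
`v` has a matching `σ`: sort the finite set of values (`Finset.orderIsoOfFin` of
`Finset.univ.image v`, or the map `e ↦ #{e' | v e' < v e}`, which is injective into
`Fin (card ι)`, hence bijective). (iv) `Match v σ` and `Match v σ'` imply `σ = σ'`
(`σ' ∘ σ⁻¹` is strictly monotone on `Fin N`, hence the identity). So the sets
`T σ = {v ∈ S | Match v σ}` are pairwise disjoint, measurable (finite intersections of sets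
given by `v a < v b` or its negation), and their union over all `σ` is `S` up to a null set.
(v) `cube ι` is invariant under `v ↦ v ∘ π` (`measurePreserving_piCongrLeft` or `Measure.pi_eq`),
this map sends `T σ` into `T (π.trans σ)` because `S` is symmetric, and the inverse permutation
sends it back; so all `T σ` have the same measure, equal to `cube ι S / N!` (there are `N!`
bijections: `Fintype.card_equiv`). Sum over `σ ∈ A`. -/
def S_EXCH : Prop :=
  ∀ (ι : Type) [Fintype ι] [DecidableEq ι],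
    (∀ᵐ v ∂(cube ι), (∀ e, v e ∈ Icc (0 : ℝ) 1) ∧ Function.Injective v ∧
      ∃ σ : ι ≃ Fin (Fintype.card ι), Match v σ) ∧
    ∀ (A : Finset (ι ≃ Fin (Fintype.card ι))) (S : Set (ι → ℝ)), MeasurableSet S →
      (∀ (π : Equiv.Perm ι) (v : ι → ℝ), v ∈ S → (fun e => v (π e)) ∈ S) →
      ((Fintype.card ι).factorial : ENNReal) * cube ι {v | v ∈ S ∧ ∃ σ ∈ A, Match v σ} =
        (A.card : ENNReal) * cube ι S

/-- DEV (coordinates are close to relative ranks).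
Proof. Let `N = card ι`. Fix `e`. Put `v e = x`; given `x ∈ [0,1]`, `rk v e = ∑_{e' ≠ e} 1[v e' < x]`
is a sum of `N-1` independent Bernoulli variables of mean `x` (`N ≥ 1` since `e` exists).
If `δ < |rk/N - x|` then `|rk - (N-1) x| > δ N - x ≥ δ N - 1 ≥ δ N / 2`. By Hoeffding's inequality
(`ProbabilityTheory.HasSubgaussianMGF.measure_sum_ge_le_of_iIndepFun` with
`ProbabilityTheory.hasSubgaussianMGF_of_mem_Icc`, for the variables and for their negatives)
the probability is at most `2 exp(-2 (δ N/2)^2 / (N-1)) ≤ 2 exp(-δ^2 N / 2)`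
(if `N = 1` the sum is `0` and the event `δ < |0 - x|`, `δ ≥ 2` is impossible).
Fubini over `x` (split off the coordinate `e`:
`measurePreserving_piEquivPiSubtypeProd` or `MeasurableEquiv.piOptionEquivProd`), then the union
bound over the `N` coordinates. If `ι` is empty the hypothesis `2 ≤ δ * 0` fails. -/
def S_DEV : Prop :=
  ∀ (ι : Type) [Fintype ι] [DecidableEq ι] (δ : ℝ), 0 < δ → 2 ≤ δ * (Fintype.card ι : ℝ) →
    cube ι (Dev ι δ) ≤
      ENNReal.ofReal (2 * (Fintype.card ι : ℝ) * Real.exp (-(δ ^ 2 * (Fintype.card ι : ℝ)) / 2))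

/-- FUB0 (density of the main chain).
Proof. The cube on `E n p q r = Fin (n+1) ⊕ R` is the product of the cubes on `Fin (n+1)` and `R`
(`MeasureTheory.measurePreserving_sumPiEquivProdPi` / `volume_preserving_sumPiEquivProdPi`; for
`Measure.pi` of our measure the lemma `measurePreserving_sumPiEquivProdPi`). For fixed `x` on the
main chain which is strictly increasing with values in `[0,1]` the fibre is a box: `lo i j`
ranges over `[0, x_i)`, `mi i j` over `(x_i, x_{i+1})`, `up i j` over `(x_{i+1}, 1]`; its measure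
is `∏_i x_i^p (x_{i+1}-x_i)^q (1-x_{i+1})^r = W0 x` (`Measure.pi_pi`), and if `x` is not strictly
increasing the fibre is empty (for `n+1` points, `StrictMono x` iff `x i.castSucc < x i.succ` for
all `i`, `Fin.strictMono_iff_lt_succ`). Fubini (`Measure.prod_apply`). The set is measurable:
finite intersection of measurable conditions. -/
def S_FUB0 : Prop :=
  ∀ (n p q r : ℕ) (B : Set (Fin (n + 1) → ℝ)), MeasurableSet B →
    cube (E n p q r) {v | Ord v ∧ (fun i => v (X i)) ∈ B} =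
      ∫⁻ x in {x : Fin (n + 1) → ℝ | StrictMono x ∧ x ∈ B}, ENNReal.ofReal (W0 n p q r x)
        ∂(cube (Fin (n + 1)))

/-- FUB2 (integrate out the two extreme points of the main chain).
Proof. Apply FUB0 with `n = K+2` and the set of those `x` whose inner part
`i ↦ x i.succ.castSucc` is in `B`. Split off the first and the last coordinate
(`volume_preserving_piFinSuccAbove` twice, or the version `measurePreserving_piFinSuccAbove` for
`Measure.pi`). With inner points `y_0 < ... < y_K` (`y_i = x_{i+1}`), `u = x_0 < y_0` and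
`w = x_{K+2} > y_K`,
`W0 = u^p (y_0-u)^q (1-y_0)^r * ∏_{i<K} y_i^p (y_{i+1}-y_i)^q (1-y_{i+1})^r
      * y_K^p (w-y_K)^q (1-w)^r`.
`∫_0^{y_0} u^p (y_0-u)^q du = y_0^{p+q+1} c1`, `c1 = ∫_0^1 u^p (1-u)^q du`, and
`∫_{y_K}^1 (w-y_K)^q (1-w)^r dw = (1-y_K)^{q+r+1} c2`, `c2 = ∫_0^1 u^q (1-u)^r du` (substitutions),
and what remains is exactly `Wt K p q r y`: the factors `(1-y_0)^r`, `(1-y_{i+1})^r` (`i<K`) give
`∏_{i ≤ K} (1-y_i)^r`, and `y_i^p` (`i<K`), `y_K^p` give `∏_{i ≤ K} y_i^p`. Take `c = c1 c2 > 0`. -/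
def S_FUB2 : Prop :=
  ∀ (p q r : ℕ), ∃ c : ENNReal, c ≠ 0 ∧ c ≠ ⊤ ∧
    ∀ (K : ℕ) (B : Set (Fin (K + 1) → ℝ)), MeasurableSet B →
      cube (E (K + 2) p q r)
        {v | Ord v ∧ (fun i : Fin (K + 1) => v (X i.succ.castSucc)) ∈ B} = c * WI K p q r B

/-- GP (properties of `phi` and `G`).
Proof. Exponents `α = p/(q+1)`, `β = r/(q+1)` are `≥ 0`, so `Real.continuous_rpow_const` gives
continuity of `phi` on all of `ℝ`; the bounds `0 ≤ phi ≤ 1` on `[0,1]` and `0 < phi` on `(0,1)` are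
`Real.rpow_nonneg`, `Real.rpow_le_one`, `Real.rpow_pos_of_pos`. Unimodality: if `α + β = 0` then
`phi = 1`. Otherwise take `c = α/(α+β)`; on `(0,1)` the derivative of
`x^α (1-x)^β` is `x^(α-1) (1-x)^(β-1) (α (1-x) - β x)`, which is `≥ 0` for `x ≤ c` and `≤ 0` for
`x ≥ c` (`monotoneOn_of_deriv_nonneg`, `antitoneOn_of_deriv_nonpos`, with continuity on the closed
intervals). (Alternatively take logarithms on `(0,1)`.) `HasDerivAt` is the fundamental theorem
(`intervalIntegral.integral_hasDerivAt_right` or `Continuous.deriv_integral`). `G` is strictly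
increasing on `[0,1]` because its derivative is positive inside (`strictMonoOn_of_deriv_pos`);
`G 0 = 0`, `0 < G 1 ≤ 1` (integral of a function `≤ 1`). `gg` is continuous and strictly
increasing on `[0,1]`, `gg 0 = 0`, `gg 1 = 1`, so it is a bijection (intermediate value theorem).
The last clause: by the mean value theorem, or `G w - G u = ∫_u^w phi ≤ w - u`. -/
def S_GP : Prop :=
  ∀ (p q r : ℕ),
    Continuous (phi p q r) ∧
    (∀ x ∈ Icc (0 : ℝ) 1, 0 ≤ phi p q r x ∧ phi p q r x ≤ 1) ∧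
    (∀ x ∈ Ioo (0 : ℝ) 1, 0 < phi p q r x) ∧
    (∃ c ∈ Icc (0 : ℝ) 1, MonotoneOn (phi p q r) (Icc 0 c) ∧ AntitoneOn (phi p q r) (Icc c 1)) ∧
    (∀ x, HasDerivAt (G p q r) (phi p q r x) x) ∧
    G p q r 0 = 0 ∧ 0 < G p q r 1 ∧ G p q r 1 ≤ 1 ∧
    StrictMonoOn (gg p q r) (Icc 0 1) ∧ ContinuousOn (gg p q r) (Icc 0 1) ∧
    gg p q r 0 = 0 ∧ gg p q r 1 = 1 ∧ BijOn (gg p q r) (Icc (0 : ℝ) 1) (Icc 0 1) ∧
    (∀ u w, 0 ≤ u → u ≤ w → w ≤ 1 → G p q r w - G p q r u ≤ w - u)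

/-- CMP (comparison of the two densities by unimodal telescoping).
Proof. Write `φ_i = phi (x i) ∈ (0,1]`, `d_i = x_{i+1}-x_i > 0`, `D_i = G(x_{i+1})-G(x_i)`,
`s = q+1`. Then `x_i^p (1-x_i)^r = φ_i^s = φ_i φ_i^q`, so
`Wt = x_0^{p+q+1} (1-x_K)^{q+r+1} (∏_{i≤K} φ_i) (∏_{i≤K} φ_i ∏_{i<K} d_i)^q` and
`Dt = (∏_{i≤K} φ_i) (∏_{i<K} D_i)^q`. Let `c` be the mode from GP and let `k` be the number of
indices `i ≤ K` with `x_i ≤ c`, so `x_i ≤ c` iff `i < k`.
(Upper bound) We show `∏_{i≤K} φ_i ∏_{i<K} d_i ≤ ∏_{i<K} D_i`. On `[x_i, x_{i+1}]` the unimodal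
function `phi` is at least `min φ_i φ_{i+1}`, so `D_i = ∫ phi ≥ min(φ_i, φ_{i+1}) d_i`. It remains
to see `∏_{i≤K} φ_i ≤ ∏_{i<K} min(φ_i, φ_{i+1})`. For `i+1 < k` the minimum is `φ_i`, for `i ≥ k`
it is `φ_{i+1}`, and for `i = k-1` (if `1 ≤ k ≤ K`) it is `φ_{k-1}` or `φ_k`. So the product of the
minima is the product of all `φ_i` except one of them (if `k = 0`: except `φ_0`; if `k = K+1`:
except `φ_K`; otherwise except `φ_{k-1}` or `φ_k`), and the omitted factor is `≤ 1`.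
As `x_0^{p+q+1} (1-x_K)^{q+r+1} ≤ 1` we get `Wt ≤ Dt`.
(This is conveniently done by induction: for all `m ≤ K`: `∏_{i≤m} φ_i ≤ ∏_{i<m} min(φ_i,φ_{i+1})`
follows from the stronger statement that
`∏_{i≤m} φ_i = φ_{j} ∏_{i<m} min` for some `j ≤ m`; or use the following unimodal sequence lemma:
if `φ_0 ≤ ... ≤ φ_{j} ≥ φ_{j+1} ≥ ... ≥ φ_K` then `∏_{i<K} min(φ_i, φ_{i+1}) = ∏_{i ≠ j} φ_i`;
here `j` is an index where `φ_i` is maximal.)
(Lower bound) We show `φ_0 φ_K ∏_{i<K} D_i ≤ ∏_{i≤K} φ_i ∏_{i<K} d_i`. If `i+1 < k` then `phi` is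
increasing on `[x_i,x_{i+1}]` and `D_i ≤ φ_{i+1} d_i`; if `i ≥ k` then `D_i ≤ φ_i d_i`; if
`i = k-1` then `D_i ≤ d_i`. So `∏_{i<K} D_i ≤ ∏_{i<K} d_i * ∏_{i+1<k} φ_{i+1} ∏_{k ≤ i < K} φ_i`
and for `1 ≤ k ≤ K` the product of the `φ`'s is `∏_{1 ≤ i ≤ K-1} φ_i`; for `k = 0` it is
`∏_{0 ≤ i ≤ K-1} φ_i` and for `k = K+1` it is `∏_{1≤i≤K} φ_i`. Multiplying by `φ_0 φ_K` and using
`φ ≤ 1` gives the claim (also for `K = 0`: `φ_0 φ_0 ≤ φ_0`). Hence
`(φ_0 φ_K)^q Dt ≤ (∏ φ_i) (∏ φ_i ∏ d_i)^q`, and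
`x_0^{p+q+1} (1-x_K)^{q+r+1} (φ_0 φ_K)^q Dt ≤ Wt`. Finally
`φ_i ≥ (x_i (1-x_i))^{p+r}` (exponents `p/(q+1), r/(q+1) ≤ p+r` and bases in `(0,1)`) and
`x_0 ≥ x_0 (1-x_0)`, `1-x_K ≥ x_K (1-x_K)`, so with `z = x_0 (1-x_0) x_K (1-x_K) ≤ 1`,
`x_0^{p+q+1} ≥ (x_0(1-x_0))^{p+q+1} ≥ z^{p+q+1}`, `(1-x_K)^{q+r+1} ≥ z^{q+r+1}`,
`(φ_0 φ_K)^q ≥ z^{q(p+r)}`. -/
def S_CMP : Prop :=
  ∀ (K p q r : ℕ) (x : Fin (K + 1) → ℝ), StrictMono x → (∀ i, x i ∈ Ioo (0 : ℝ) 1) →
    Wt K p q r x ≤ Dt K p q r x ∧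
    (x 0 * (1 - x 0) * x (Fin.last K) * (1 - x (Fin.last K))) ^
      ((p + q + 1) + (q + r + 1) + q * (p + r)) * Dt K p q r x ≤ Wt K p q r x

/-- PUSH (change of variables `y_i = gg (x_i)`).
Proof. One variable: for measurable `F : ℝ → ENNReal`,
`∫⁻ x in Icc 0 1, F (gg x) * ofReal (phi x) = ofReal (G 1) * ∫⁻ y in Icc 0 1, F y`: `gg` is
injective on `Icc 0 1` with image `Icc 0 1` and derivative `phi / G 1 ≥ 0`
(`lintegral_image_eq_lintegral_abs_deriv_mul`). In other words, with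
`μ = (volume.restrict (Icc 0 1)).withDensity (ofReal ∘ phi)` (a finite measure) we have
`μ.map gg = ofReal (G 1) • volume.restrict (Icc 0 1)`. Many variables: the product of the measures
`μ` is `(cube _).withDensity (∏ i, ofReal (phi (x i)))` (`Measure.pi_eq` and the product formula
for lintegrals over boxes, or induction on `K` with `measurePreserving_piFinSuccAbove` and Fubini),
and `Measure.pi_map_pi` (or the same induction on `K`) gives the claim. A direct induction on the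
number of variables, splitting off one variable by Tonelli, proves everything at once:
`∫⁻ x, F (gg ∘ x) * ∏ ofReal (phi (x i)) = ofReal (G 1)^(K+1) * ∫⁻ y, F y` for all measurable `F`.
(All `phi (x i) ≥ 0` on the cube, so `ofReal` of the product is the product of the `ofReal`.) -/
def S_PUSH : Prop :=
  ∀ (p q r K : ℕ) (F : (Fin (K + 1) → ℝ) → ENNReal), Measurable F →
    ∫⁻ x, F (fun i => gg p q r (x i)) * ENNReal.ofReal (∏ i, phi p q r (x i))
        ∂(cube (Fin (K + 1))) =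
      ENNReal.ofReal (G p q r 1 ^ (K + 1)) * ∫⁻ y, F y ∂(cube (Fin (K + 1)))

/-- DIV (the comparison integral is a Dirichlet integral).
Proof. PUSH with `F y = indicator of {StrictMono y ∧ y ∈ A}` times
`ofReal (∏_{i<K} (y_{i+1}-y_i)^q)`; for `x` in the cube `StrictMono x ↔ StrictMono (gg ∘ x)`
(`gg` strictly increasing on `[0,1]`, GP), and `G (x_{i+1}) - G (x_i) = G 1 (gg (x_{i+1}) -
gg (x_i))`, so `∏_{i<K} (G x_{i+1} - G x_i)^q = (G 1)^(q K) ∏ (gg x_{i+1} - gg x_i)^q`. The cube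
measure is carried by `[0,1]^{K+1}`. -/
def S_DIV : Prop :=
  ∀ (p q r K : ℕ) (A : Set (Fin (K + 1) → ℝ)), MeasurableSet A →
    DI K p q r {x | (fun i => gg p q r (x i)) ∈ A} =
      ENNReal.ofReal (G p q r 1 ^ (q * K + (K + 1))) * V K q A

/-- DIR (the Dirichlet law is concentrated).
Proof. Use the poset `E K 0 q 0`, a chain of antichains with
`N = card (E K 0 q 0) = (K+1) + K q = (q+1) K + 1` elements. By FUB0 (with `p = r = 0`, where
`W0 = ∏ (x_{i+1}-x_i)^q`), `V K q A = cube (E K 0 q 0) {v | Ord v ∧ (v ∘ X) ∈ A}` for measurable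
`A`. Let `𝒜` be the (nonempty) finite set of the `σ : E K 0 q 0 ≃ Fin N` with `Ord σ`
(nonempty: order the elements `X 0, mi 0 _, X 1, mi 1 _, ...`; or any linear extension). If
`Match v σ` then `Ord v ↔ Ord σ`, and `rk v e = σ e`, because `rk v e` counts the `e'` with
`σ e' < σ e`. If `Ord σ` then `σ (X i) = (q+1) i`: the elements below `X i` are exactly `X j`
(`j < i`) and `mi j _` (`j < i`), `i + i q` elements.
By EXCH with `S = univ`: `V univ = cube {∃ σ ∈ 𝒜, Match v σ} = |𝒜|/N! ∈ (0, ∞)` (a.e. `v` has a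
matching `σ`). For symmetric measurable `S`, EXCH gives
`cube {v ∈ S ∧ Ord v} = (|𝒜|/N!) cube S = V univ * cube S`.
(b) `S = {v | ∃ e, v e < t ∨ 1 - t < v e}` is symmetric and `cube S ≤ N * 2 t` (union bound; each
of the sets `v e < t`, `1-t < v e` has measure at most `t`).
(c) `S = Dev _ (δ/2)` is symmetric (`rk (v ∘ π) e = rk v (π e)`) and measurable, and by DEV
(`2 ≤ (δ/2) N`) its measure is at most `2 N exp(-(δ/2)^2 N/2) = 2 N exp (-δ^2 N/8)`. If `Ord v`,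
`v` is injective and `v ∉ Dev (δ/2)` then `|(q+1) i / N - v (X i)| ≤ δ/2`, and
`|(q+1) i/N - i/K| = i |(q+1) K - N| / (N K) = i/(N K) ≤ 1/N ≤ δ/4`; so `|v (X i) - i/K| < δ`. -/
def S_DIR : Prop :=
  ∀ (K q : ℕ), 1 ≤ K →
    V K q univ ≠ 0 ∧ V K q univ ≠ ⊤ ∧
    (∀ t : ℝ, 0 ≤ t → V K q {y | y 0 < t ∨ 1 - t < y (Fin.last K)} ≤
      ENNReal.ofReal (2 * (((q : ℝ) + 1) * K + 1) * t) * V K q univ) ∧
    (∀ δ : ℝ, 0 < δ → 4 ≤ δ * (((q : ℝ) + 1) * K + 1) →
      V K q {y | ∃ i : Fin (K + 1), δ < |y i - ((i : ℕ) : ℝ) / (K : ℝ)|} ≤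
        ENNReal.ofReal (2 * (((q : ℝ) + 1) * K + 1) *
          Real.exp (-(δ ^ 2 * (((q : ℝ) + 1) * K + 1)) / 8)) * V K q univ)

/-- RAT (the inner points are well placed).
Proof. Let `N = (q+1) K + 1`, `B = G 1 ∈ (0,1]`, `M = (p+q+1)+(q+r+1)+q(p+r)`,
`Z = ofReal (B^(qK+K+1)) * V K q univ` (neither `0` nor `∞`, by DIR, for `K ≥ 1`). A.e. point of
the cube has all coordinates in `(0,1)`, so CMP applies a.e.
Numerator: `WI (Bad δ) ≤ DI (Bad δ) = ofReal (B^..) * V {y | ∃ i, δ < |y i - i/K|}` (CMP and DIV)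
`≤ ofReal (2 N exp(-δ^2 N/8)) * Z` once `4 ≤ δ N` (DIR). Also `WI univ ≤ DI univ = Z < ∞`.
Denominator: let `t = 1/(4N)` and `A = {y | t ≤ y 0 ∧ y (last) ≤ 1 - t}`. By DIR
`V Aᶜ ≤ ofReal (2 N t) V univ = V univ / 2`, so `V A ≥ V univ / 2`. If `x` is increasing in
`(0,1)` with `gg ∘ x ∈ A` then `x_0 ≥ B t`, since `t ≤ gg (x_0) = G(x_0)/B ≤ x_0/B` (last clause of
GP with `u = 0`), and `1 - x_K ≥ B t`, since `t ≤ 1 - gg (x_K) = (G 1 - G (x_K))/B ≤ (1-x_K)/B`; as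
`x_0 ≤ x_K` all four of `x_0, 1-x_0, x_K, 1-x_K` are `≥ B t`. By CMP
`Wt x ≥ (B t)^(4 M) Dt x` there, hence
`WI univ ≥ ofReal ((B t)^(4M)) * DI {gg ∘ x ∈ A} ≥ ofReal ((B/(4N))^(4M)) * Z / 2 > 0`.
So `WI (Bad δ) ≤ ofReal (4 N exp(-δ^2 N/8) (4N/B)^(4M)) * WI univ`, and the real factor tends to
`0` as `K → ∞` (exponential against polynomial in `N`). -/
def S_RAT : Prop :=
  ∀ (p q r : ℕ) (δ η : ℝ), 0 < δ → 0 < η → ∃ K0 : ℕ, ∀ K : ℕ, K0 ≤ K →
    WI K p q r univ ≠ 0 ∧ WI K p q r univ ≠ ⊤ ∧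
    WI K p q r (Bad K p q r δ) ≤ ENNReal.ofReal η * WI K p q r univ

/-- UNI (uniform continuity of the inverse).
Proof. By GP `gg` is a continuous strictly increasing bijection of `[0,1]` and `ff` is its inverse
(`ff = invFunOn`, so `ff y ∈ [0,1]`, `gg (ff y) = y`, `ff (gg x) = x` for `x, y ∈ [0,1]`); `ff` is
monotone on `[0,1]` and continuous (inverse of a strictly monotone bijection of compact
intervals, e.g. `StrictMonoOn.continuousOn...` with surjectivity, or the homeomorphism of the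
compact space `Icc 0 1`), hence uniformly continuous: there is `δ' > 0` with
`|ff y - ff y'| ≤ ε` whenever `y, y' ∈ [0,1]`, `|y-y'| ≤ δ'`. Take `δ = δ'/2` and `K0 ≥ 1` with
`2/(K0+4) ≤ δ'/2` and `2/(K0+4) ≤ δ'`. For `i ≤ K`, `x ∈ [0,1]`:
`|(i+2)/(K+4) - i/K| = |2K-4i|/(K(K+4)) ≤ 2/(K+4) ≤ δ'/2`, so `|gg x - i/K| ≤ δ` implies
`|gg x - (i+2)/(K+4)| ≤ δ'` and `|x - ff ((i+2)/(K+4))| ≤ ε`. The last four claims: `ff 0 = 0`,
`ff 1 = 1`, and `1/(K+4), 2/(K+4) ≤ δ'`. -/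
def S_UNI : Prop :=
  ∀ (p q r : ℕ) (ε : ℝ), 0 < ε → ∃ δ > 0, ∃ K0 : ℕ, ∀ K : ℕ, K0 ≤ K →
    (∀ i : ℕ, i ≤ K → ∀ x ∈ Icc (0 : ℝ) 1, |gg p q r x - (i : ℝ) / (K : ℝ)| ≤ δ →
      |x - ff p q r (((i : ℝ) + 2) / ((K : ℝ) + 4))| ≤ ε) ∧
    ff p q r (1 / ((K : ℝ) + 4)) ∈ Icc 0 ε ∧
    ff p q r (2 / ((K : ℝ) + 4)) ∈ Icc 0 ε ∧
    ff p q r (((K : ℝ) + 2) / ((K : ℝ) + 4)) ∈ Icc (1 - ε) 1 ∧
    ff p q r (((K : ℝ) + 3) / ((K : ℝ) + 4)) ∈ Icc (1 - ε) 1

/-- DET (deterministic step).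
Proof. Take `δ, K0` from UNI with `ε/3` in place of `ε`. Since `Match v σ`, `rk v e = σ e` for all
`e` (count the `e'` with `σ e' < σ e`; `σ` is a bijection onto `Fin N`), so `v ∉ Dev (ε/3)` says
`|σ e / N - v e| ≤ ε/3` for all `e`, where `N = NN (K+2) p q r = card`. For the inner points
(`i : Fin (K+1)`, point `X_{i+1}`), not `Bad` gives `|gg (v (X_{i+1})) - i/K| ≤ δ`, so
`|v (X_{i+1}) - ff ((i+2)/(K+4))| ≤ ε/3`, and together
`|σ (X_{i+1})/N - ff ((i+2)/(K+4))| ≤ 2ε/3`; this is the claim for the index `i+1`, whose target is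
`ff ((i+1+1)/(K+2+2))`. For `X_0`: `0 ≤ σ (X_0) ≤ σ (X_1)` (as `v (X_0) < v (X_1)`), and
`σ (X_1)/N ≤ ff (2/(K+4)) + 2ε/3 ≤ ε`, while `0 ≤ ff (1/(K+4)) ≤ ε/3`; both numbers are in
`[0, ε]`. For the last point `X_{K+2}`: `1 ≥ σ (X_{K+2})/N ≥ σ (X_{K+1})/N ≥ ff ((K+2)/(K+4)) -
2ε/3 ≥ 1 - ε` and `ff ((K+3)/(K+4)) ∈ [1-ε/3, 1]`. -/
def S_DET : Prop :=
  ∀ (p q r : ℕ) (ε : ℝ), 0 < ε → ∃ δ > 0, ∃ K0 : ℕ, ∀ K : ℕ, K0 ≤ K →
    ∀ (v : E (K + 2) p q r → ℝ) (σ : E (K + 2) p q r ≃ Fin (Fintype.card (E (K + 2) p q r))),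
      (∀ e, v e ∈ Icc (0 : ℝ) 1) → Match v σ → Ord v →
      v ∉ Dev (E (K + 2) p q r) (ε / 3) →
      (fun i : Fin (K + 1) => v (X i.succ.castSucc)) ∉ Bad K p q r δ →
      ∀ i : Fin (K + 2 + 1),
        |((σ (X i) : ℕ) : ℝ) / (NN (K + 2) p q r : ℝ) -
          ff p q r ((((i : ℕ) : ℝ) + 1) / (((K + 2 : ℕ) : ℝ) + 2))| ≤ ε

/-- EXT (the discrete statement with unordered sides).
Proof. Take `δ, K0` from DET; `n = K+2`, `N = NN n p q r → ∞`. Let `𝒜` be the set of the `σ` with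
`Ord σ`, `𝒜' ⊆ 𝒜` the bad ones (some `i` with `ε < |...|`). If `Match v σ` then
`Ord v ↔ Ord σ`. By EXCH with `S = univ` and FUB2 with `B = univ`:
`|𝒜|/N! = cube {Ord v} = c * WI univ`, in particular `|𝒜| > 0` for large `K` (RAT).
By DET, for a.e. `v` (values in `[0,1]`), if `Match v σ` with `σ ∈ 𝒜'` then `Ord v` and
(`v ∈ Dev (ε/3)` or the inner part of `v` is in `Bad δ`). Hence
`|𝒜'|/N! = cube {∃ σ ∈ 𝒜', Match v σ} ≤ cube {v ∈ Dev (ε/3) ∧ ∃ σ ∈ 𝒜, Match v σ} +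
cube {Ord v ∧ inner ∈ Bad δ} = |𝒜|/N! * cube (Dev (ε/3)) + c * WI (Bad δ)` (EXCH for the symmetric
measurable set `Dev`, FUB2) `≤ |𝒜|/N! * (ofReal (2 N exp (-(ε/3)^2 N/2)) + ofReal (η/2))` for
large `K` by DEV and RAT (`c * WI (Bad δ) ≤ ofReal (η/2) * c * WI univ = ofReal (η/2) |𝒜|/N!`).
The first term in the bracket is `≤ ofReal (η/2)` for large `K`. `Bad δ` is measurable (`gg` is
continuous, GP); `Dev` is measurable (`rk` is a finite sum of indicators of `v e' < v e`) and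
symmetric (`rk (v ∘ π) e = rk v (π e)`). -/
def S_EXT : Prop :=
  ∀ (p q r : ℕ) (ε η : ℝ), 0 < ε → 0 < η → ∃ n0 : ℕ, ∀ n : ℕ, n0 ≤ n →
    0 < {σ : E n p q r ≃ Fin (Fintype.card (E n p q r)) | Ord σ}.ncard ∧
    (({σ : E n p q r ≃ Fin (Fintype.card (E n p q r)) | Ord σ ∧
        ∃ i : Fin (n + 1), ε < |((σ (X i) : ℕ) : ℝ) / (NN n p q r : ℝ) -
          ff p q r ((((i : ℕ) : ℝ) + 1) / ((n : ℝ) + 2))|}.ncard : ℕ) : ℝ) ≤
      η * (({σ : E n p q r ≃ Fin (Fintype.card (E n p q r)) | Ord σ}.ncard : ℕ) : ℝ)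

/-- ORB1 (sorting the sides).
Proof. `H = (Fin n → Perm (Fin p)) × (Fin n → Perm (Fin q)) × (Fin n → Perm (Fin r))` has
`(p! q! r!)^n` elements. The map `(σ, π, ρ, τ) ↦ σ'` with `σ' (X i) = σ (X i)`,
`σ' (lo i j) = σ (lo i (π i j))`, `σ' (mi i j) = σ (mi i (ρ i j))`,
`σ' (up i j) = σ (up i (τ i j))` is a bijection from
`{σ | Ord σ ∧ Sorted σ ∧ P (σ ∘ X)} × H` onto `{σ' | Ord σ' ∧ P (σ' ∘ X)}`. Onto: given `σ'`, for
each `i` let `π i` be the inverse of the permutation `Tuple.sort (j ↦ σ' (lo i j))`, etc.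
Injective: `j ↦ σ (lo i j)` is strictly increasing with the same set of values as
`j ↦ σ' (lo i j)`, hence determined by `σ'` (`Fin.strictMono_unique` / `StrictMono.range_inj`);
then `π i` is determined because `σ` is injective. Relations and `P` only depend on the sets of
values of the blocks and on the values on the main chain. -/
def S_ORB1 : Prop :=
  ∀ (n p q r : ℕ) (P : (Fin (n + 1) → ℕ) → Prop),
    {σ : E n p q r ≃ Fin (Fintype.card (E n p q r)) | Ord σ ∧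
        P (fun i => (σ (X i) : ℕ))}.ncard =
      (p.factorial * q.factorial * r.factorial) ^ n *
      {σ : E n p q r ≃ Fin (Fintype.card (E n p q r)) | Ord σ ∧ Sorted (fun e => σ e) ∧
        P (fun i => (σ (X i) : ℕ))}.ncard

/-- ORB2 (sorted orderings are linear extensions of the cluster poset).
Here `m = p+q+r+2`, `a = p`, `b = p+q+1` (0-based positions), `(m-1) n + 1 = card (E n p q r)`.
Proof. For `i < n`, `j < m` let `el i j : E n p q r` be `lo i j` if `j < p`, `X i.castSucc` if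
`j = p`, `mi i (j-p-1)` if `p < j < p+q+1`, `X i.succ` if `j = p+q+1`, and `up i (j-p-q-2)`
otherwise. Every element of `E` is some `el i j` (as `n ≥ 1`), and `el i j = el i' j'` iff
`(i,j) = (i',j')` or `i+1 = i'`, `j = b`, `j' = a` or vice versa. To `σ` with `Ord σ`, `Sorted σ`
assign `h i j = σ (el i j)`: each row is strictly increasing (sortedness inside the blocks, `Ord`
between them), values are `< card E = (m-1) n + 1`, the identification holds, and equal values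
only occur for equal elements. Conversely, given `h` with `IsLE`, define `σ (X i) = h i a` for
`i < n`, `σ (X n) = h (n-1) b`, `σ (lo i j) = h i j`, etc.; it is well defined, injective by the
last clause of `IsLE`, hence a bijection onto `Fin (card E)`; it is `Ord` and `Sorted` because the
rows are strictly increasing and `h i b = h (i+1) a`. The two maps are inverse to each other and
`ht a b h i = σ (X i)` for `i ≤ n`. -/
def S_ORB2 : Prop :=
  ∀ (n p q r : ℕ) (a b : Fin (p + q + r + 2)), 1 ≤ n → (a : ℕ) = p → (b : ℕ) = p + q + 1 →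
    ∀ P : (Fin (n + 1) → ℕ) → Prop,
    {σ : E n p q r ≃ Fin (Fintype.card (E n p q r)) | Ord σ ∧ Sorted (fun e => σ e) ∧
        P (fun i => (σ (X i) : ℕ))}.ncard =
      {h : Fin n → Fin (p + q + r + 2) → ℕ | IsLE a b h ∧
        P (fun i => ht a b h (i : ℕ))}.ncard

/-- FIN (the theorem).
Proof. Given `m, a < b` put `p = a`, `q = b - a - 1`, `r = m - 1 - b`, so `m = p+q+r+2` (substitute).
Then `b - a = q+1` and `m-1-b = r` as reals, `g a b = gg p q r`, `f a b = ff p q r`; `BijOn` is GP.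
`card (E n p q r) = (m-1) n + 1 = NN`. Let `L_n = {h | IsLE}`, `L'_n` the set of those with some
`i ≤ n` and `|ht i - N f(..)| > ε N`, i.e. `|ht i / N - f| > ε`. By ORB1, ORB2 with `P = True` and
with the bad `P`, `|𝒜| = C |L_n|` and `|𝒜'| = C |L'_n|`, `C = (p! q! r!)^n > 0`; so by EXT for all
`η > 0` and all large `n`: `|L_n| > 0` and `|L'_n| ≤ η |L_n|`. `L_n` is finite (values bounded), so
the good ones are `|L_n| - |L'_n|` and the proportion is in `[1-η, 1]`. -/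
def S_FIN : Prop :=
  ∀ (m : ℕ) (a b : Fin m), a < b →
    BijOn (g a b) (Icc (0 : ℝ) 1) (Icc 0 1) ∧
    ∀ ε : ℝ, 0 < ε →
      Tendsto (fun n : ℕ =>
        (({h : Fin n → Fin m → ℕ | IsLE a b h ∧ ∀ i : ℕ, i ≤ n →
            |(ht a b h i : ℝ) - (((m : ℝ) - 1) * n + 1) * f a b (((i : ℝ) + 1) / ((n : ℝ) + 2))| ≤
              ε * (((m : ℝ) - 1) * n + 1)}.ncard : ℕ) : ℝ) /
          (({h : Fin n → Fin m → ℕ | IsLE a b h}.ncard : ℕ) : ℝ)) atTop (𝓝 1)

end Q109.CP
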